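import Pool.Agent.helper60.EPT.Spec

/-!
# Row eth:TUM (helper5)
-/

set_option autoImplicit false

namespace Pool.Agent.EPT

open D

theorem TUM_prd (U L l : D) : l ∈ (prd U L).toList ↔ ∃ u ∈ U.toList, ∃ l' ∈ L.toList, cons u l' = l := by
  unfold prd
  simp only [toList_ofList, List.mem_flatMap, List.mem_map]

theorem TUM_it (U : D) (N : ℕ) : ∀ l : D, l ∈ ((prd U)^[N] (cons nil nil)).toList ↔
    l.toList.length = N ∧ ∀ a ∈ l.toList, a ∈ U.toList := by
  induction N with
  | zero =>
    intro l
    cases l with
    | nil => simp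
    | cons a b => simp
  | succ N ih =>
    intro l
    rw [Function.iterate_succ_apply', TUM_prd]
    cases l with
    | nil => simp
    | cons a b =>
      simp only [ih, toList_cons, List.length_cons, Nat.add_right_cancel_iff, List.mem_cons, forall_eq_or_imp]
      constructor
      · rintro ⟨u, hu, l', ⟨h1, h2⟩, h3⟩
        injection h3 with h4 h5
        subst h4
        subst h5
        exact ⟨h1, hu, h2⟩
      · rintro ⟨h1, h2, h3⟩
        exact ⟨a, h2, b, ⟨h1, h3⟩, rfl⟩

theorem TUM : TUM_stmt := by
  intro U n l
  exact TUM_it U n.toList.length l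

end Pool.Agent.EPT
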