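import Pool.Agent.helper60.EPT.Spec

/-!
# Row eth:VAR (helper5)
-/

set_option autoImplicit false

namespace Pool.Agent.EPT

open D

/-- the value at `nil` -/
def VAR_a (_ : D) : D := cons nil (cons nil nil)

/-- the step -/
def VAR_h (z : D) : D :=
  cons (if z.snd.fst.fst = nil then ofList (z.fst.snd.snd.fst.toList ++ z.fst.snd.snd.snd.toList) else z.snd.fst.snd)
    (cons z.fst.fst.fst z.fst.snd.fst)

/-- the values -/
def VAR_V (t : D) : D := cons (ofList (vars t)) (cons (ofList (vars t.fst)) (ofList (vars t.snd)))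

theorem VAR_vars (l r : D) : ofList (vars (cons l r)) = if l = nil then ofList (vars r.fst ++ vars r.snd) else r := by
  cases l with
  | nil =>
    cases r with
    | nil => simp [vars]
    | cons a b => simp [vars]
  | cons a b =>
    simp [vars]

theorem VAR_rc (e t : D) : rc VAR_a VAR_h e t = VAR_V t := by
  induction t with
  | nil => simp [rc, VAR_a, VAR_V, vars]
  | cons l r ihl ihr =>
    simp only [rc, ihl, ihr, VAR_V, VAR_h, fst_cons, snd_cons, toList_ofList, VAR_vars]

theorem VAR_size (t : D) : (ofList (vars t)).size ≤ t.size := by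
  induction t using vars.induct with
  | case1 => simp [vars]
  | case2 => simp [vars]
  | case3 a b iha ihb =>
    have h1 := size_ofList (vars (cons nil (cons a b)))
    have h2 := size_ofList (vars a)
    have h3 := size_ofList (vars b)
    have h4 : vars (cons nil (cons a b)) = vars a ++ vars b := by simp [vars]
    rw [h4] at h1 ⊢
    simp only [List.map_append, List.sum_append, List.length_append] at h1
    simp only [size_cons, size_nil]
    omega
  | case4 a b r =>
    simp only [vars, ofList_toList, size_cons]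
    omega

theorem VAR (hC : Cal) (hL : CalL) : VAR_stmt := by
  have ha : FP VAR_a := hC.const _
  have hz : FP fun z : D => z := hC.id
  have hh : FP VAR_h := by
    refine hC.cons _ _ ?_ (hC.cons _ _ (hC.fst _ (hC.fst _ (hC.fst _ hz))) (hC.fst _ (hC.snd _ (hC.fst _ hz))))
    refine hC.cond (fun z => z.snd.fst.fst) (fun z => z.snd.fst.snd)
      (fun z => ofList (z.fst.snd.snd.fst.toList ++ z.fst.snd.snd.snd.toList)) ?_ ?_ ?_
    · exact hC.fst _ (hC.fst _ (hC.snd _ hz))
    · exact hC.snd _ (hC.fst _ (hC.snd _ hz))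
    · exact hL.app _ _ (hC.fst _ (hC.snd _ (hC.snd _ (hC.fst _ hz)))) (hC.snd _ (hC.snd _ (hC.snd _ (hC.fst _ hz))))
  have hb : ∃ c : ℕ, ∀ e t : D, (rc VAR_a VAR_h e t).size ≤ (t.size + e.size + c) ^ c := by
    refine ⟨2, fun e t => ?_⟩
    rw [VAR_rc]
    unfold VAR_V
    simp only [size_cons]
    have h1 := VAR_size t
    have h2 := (VAR_size t.fst).trans (size_fst t)
    have h3 := (VAR_size t.snd).trans (size_snd t)
    nlinarith [Nat.zero_le (t.size), Nat.zero_le (e.size)]
  have h := hL.rc VAR_a VAR_h ha hh hb (fun x => x) (fun _ => nil) hz (hC.const nil)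
  have h2 := hC.fst _ h
  have h3 : (fun x : D => ofList (vars x)) = fun x => (rc VAR_a VAR_h nil x).fst := by
    funext x
    rw [VAR_rc]
    rfl
  unfold VAR_stmt
  rw [h3]
  exact h2

end Pool.Agent.EPT
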