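import Pool.Agent.helper60.EPT.Spec

/-!
# Row eth:VCF (helper5)
-/

set_option autoImplicit false

namespace Pool.Agent.EPT

open D

theorem VCF_lt (hC : Cal) (hL : CalL) (e l : D → D) (he : FP e) (hl : FP l) : FP fun x => tv (lt (e x) (l x)) := by
  have h := hC.iff (fun x => look (e x) (l x).snd) (fun x => (l x).fst) (hL.look _ _ he (hC.snd _ hl)) (hC.fst _ hl)
  have h2 : (fun x => tv (lt (e x) (l x))) = fun x => tv (look (e x) (l x).snd ≠ nil ↔ (l x).fst ≠ nil) := by
    funext x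
    exact tv_congr _ _ Iff.rfl
  rw [h2]
  exact h

theorem VCF_or (hC : Cal) (P Q : D → Prop) [DecidablePred P] [DecidablePred Q] (hP : FP fun x => tv (P x))
    (hQ : FP fun x => tv (Q x)) : FP fun x => tv (P x ∨ Q x) := by
  have h := hC.or _ _ hP hQ
  have h2 : (fun x => tv (P x ∨ Q x)) = fun x => tv (tv (P x) ≠ nil ∨ tv (Q x) ≠ nil) := by
    funext x
    apply tv_congr
    rw [tv_ne_nil, tv_ne_nil]
  rw [h2]
  exact h

theorem VCF_not (hC : Cal) (P : D → Prop) [DecidablePred P] (hP : FP fun x => tv (P x)) : FP fun x => tv (¬ P x) := by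
  have h := hC.not _ hP
  have h2 : (fun x => tv (¬ P x)) = fun x => tv (tv (P x) = nil) := by
    funext x
    apply tv_congr
    rw [tv_eq_nil]
  rw [h2]
  exact h

theorem VCF_all (hL : CalL) (P : D → Prop) [DecidablePred P] (hP : FP fun x => tv (P x)) (l e : D → D) (hl : FP l)
    (he : FP e) : FP fun x => tv (∀ a ∈ (l x).toList, P (cons a (e x))) := by
  have h := hL.all _ _ _ hP hl he
  have h2 : (fun x => tv (∀ a ∈ (l x).toList, P (cons a (e x)))) =
      fun x => tv (∀ a ∈ (l x).toList, tv (P (cons a (e x))) ≠ nil) := by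
    funext x
    apply tv_congr
    simp only [tv_ne_nil]
  rw [h2]
  exact h

theorem VCF_1 (hC : Cal) (hL : CalL) (f : D → D) (hf : FP f) : FP fun x => vc (f x) := by
  have hz : FP fun z : D => z := hC.id
  have hb : FP fun z : D => cons z.fst.fst.snd (cons z.fst.snd.fst.snd (cons z.fst.snd.snd.snd nil)) := by
    refine hC.cons _ _ (hC.snd _ (hC.fst _ (hC.fst _ hz))) (hC.cons _ _ (hC.snd _ (hC.fst _ (hC.snd _ (hC.fst _ hz))))
      (hC.cons _ _ (hC.snd _ (hC.snd _ (hC.snd _ (hC.fst _ hz)))) (hC.const nil)))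
  have h := hL.flatMap _ f (fun _ => nil) hb hf (hC.const nil)
  exact h

theorem VCF_2 (hC : Cal) (hL : CalL) (f : D → D) (hf : FP f) : FP fun x => st (f x) := by
  have hz : FP fun z : D => z := hC.id
  have hb : FP fun z : D => z.fst.snd := hC.snd _ (hC.fst _ hz)
  have h := hL.map _ (fun x => (f x).snd) (fun _ => nil) hb (hC.snd _ hf) (hC.const nil)
  exact hC.cons _ _ (hC.fst _ hf) h

theorem VCF_3 (hC : Cal) (hL : CalL) (f e : D → D) (hf : FP f) (he : FP e) : FP fun x => tv (ok (f x) (e x)) := by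
  have hz : FP fun z : D => z := hC.id
  have h1 : FP fun z : D => tv (lt z.snd z.fst.fst) := VCF_lt hC hL _ _ (hC.snd _ hz) (hC.fst _ (hC.fst _ hz))
  have h2 : FP fun z : D => tv (lt z.snd z.fst.snd.fst) :=
    VCF_lt hC hL _ _ (hC.snd _ hz) (hC.fst _ (hC.snd _ (hC.fst _ hz)))
  have h3 : FP fun z : D => tv (lt z.snd z.fst.snd.snd) :=
    VCF_lt hC hL _ _ (hC.snd _ hz) (hC.snd _ (hC.snd _ (hC.fst _ hz)))
  have h4 := VCF_all hL _ (VCF_or hC _ _ h1 (VCF_or hC _ _ h2 h3)) f e hf he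
  have h5 : (fun x => tv (ok (f x) (e x))) = fun x => tv (∀ a ∈ (f x).toList, lt (cons a (e x)).snd (cons a (e x)).fst.fst ∨
      lt (cons a (e x)).snd (cons a (e x)).fst.snd.fst ∨ lt (cons a (e x)).snd (cons a (e x)).fst.snd.snd) := by
    funext x
    exact tv_congr _ _ Iff.rfl
  rw [h5]
  exact h4

theorem VCF_4 (hC : Cal) (hL : CalL) (f e : D → D) (hf : FP f) (he : FP e) : FP fun x => tv (cns (f x) (e x)) := by
  have hz : FP fun z : D => z := hC.id
  have h1 : FP fun z : D => tv (z.snd.fst.fst = z.fst.fst) :=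
    hC.eq _ _ (hC.fst _ (hC.fst _ (hC.snd _ hz))) (hC.fst _ (hC.fst _ hz))
  have h2 : FP fun z : D => tv (look z.snd.snd.fst z.snd.fst.fst = look z.snd.snd.snd z.fst.fst) := by
    refine hC.eq _ _ (hL.look _ _ (hC.fst _ (hC.snd _ (hC.snd _ hz))) (hC.fst _ (hC.fst _ (hC.snd _ hz))))
      (hL.look _ _ (hC.snd _ (hC.snd _ (hC.snd _ hz))) (hC.fst _ (hC.fst _ hz)))
  have h3 := VCF_or hC _ _ (VCF_not hC _ h1) h2
  have h4 := VCF_all hL _ h3 (fun z => z.snd.snd) (fun z => z) (hC.snd _ (hC.snd _ hz)) hz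
  have h5 := VCF_all hL _ h4 f (fun x => cons (f x) (e x)) hf (hC.cons _ _ hf he)
  have h6 : (fun x => tv (cns (f x) (e x))) = fun x => tv (∀ a ∈ (f x).toList, ∀ b ∈ (cons a (cons (f x) (e x))).snd.snd.toList,
      ¬ ((cons b (cons a (cons (f x) (e x)))).snd.fst.fst = (cons b (cons a (cons (f x) (e x)))).fst.fst) ∨
      look (cons b (cons a (cons (f x) (e x)))).snd.snd.fst (cons b (cons a (cons (f x) (e x)))).snd.fst.fst =
        look (cons b (cons a (cons (f x) (e x)))).snd.snd.snd (cons b (cons a (cons (f x) (e x)))).fst.fst) := by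
    funext x
    apply tv_congr
    unfold cns
    simp only [fst_cons, snd_cons]
    constructor
    · intro h p hp q hq
      by_cases hpq : p.fst = q.fst
      · exact Or.inr (h p hp q hq hpq)
      · exact Or.inl hpq
    · intro h p hp q hq hpq
      rcases h p hp q hq with h7 | h7
      · exact absurd hpq h7
      · exact h7
  rw [h6]
  exact h5

theorem VCF (hC : Cal) (hL : CalL) : VCF_stmt :=
  ⟨fun f hf => VCF_1 hC hL f hf, fun f hf => VCF_2 hC hL f hf, fun f e hf he => VCF_3 hC hL f e hf he,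
    fun f e hf he => VCF_4 hC hL f e hf he⟩

end Pool.Agent.EPT
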